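import Mathlib

/-!
# H81X: the fibre lemma for affine symplectic maps (MP_1e80f3_gt), part 1: diagonal operators

`E` is a finite dimensional real inner product space with an orthogonal complex structure `J`; the symplectic form is
`(x, y) ↦ ⟪J x, y⟫`.
-/

open Set Filter Topology
open scoped RealInnerProductSpace

namespace H81X

variable {E : Type*} [NormedAddCommGroup E] [InnerProductSpace ℝ E]

/-- `J` is an orthogonal complex structure. -/
structure IsJ (J : E →L[ℝ] E) : Prop where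
  iso : ∀ x y, ⟪J x, J y⟫ = ⟪x, y⟫
  sq : ∀ x, J (J x) = -x

/-- `A` preserves the form `⟪J x, y⟫`. -/
def Sp (J A : E →L[ℝ] E) : Prop := ∀ x y, ⟪J (A x), A y⟫ = ⟪J x, y⟫

/-- `A` is orthogonal and commutes with `J`. -/
def IsU (J A : E →L[ℝ] E) : Prop := (∀ x, ‖A x‖ = ‖x‖) ∧ ∀ x, A (J x) = J (A x)

theorem IsJ.skew {J : E →L[ℝ] E} (h : IsJ J) (x y : E) : ⟪J x, y⟫ = -⟪x, J y⟫ := by
  rw [← h.iso (J x) y, h.sq, inner_neg_left]

theorem IsJ.self {J : E →L[ℝ] E} (h : IsJ J) (x : E) : ⟪J x, x⟫ = 0 := by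
  have h1 := h.skew x x
  rw [real_inner_comm] at h1
  linarith [real_inner_comm x (J x)]

theorem IsJ.norm {J : E →L[ℝ] E} (h : IsJ J) (x : E) : ‖J x‖ = ‖x‖ := by
  have h1 := h.iso x x
  rw [real_inner_self_eq_norm_sq, real_inner_self_eq_norm_sq] at h1
  exact (sq_eq_sq₀ (norm_nonneg _) (norm_nonneg _)).1 h1

theorem IsU.inner {J A : E →L[ℝ] E} (h : IsU J A) (x y : E) : ⟪A x, A y⟫ = ⟪x, y⟫ := by
  have h1 := (LinearMap.norm_map_iff_inner_map_map (A : E →ₗ[ℝ] E)).1 h.1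
  exact h1 x y

theorem IsU.sp {J A : E →L[ℝ] E} (h : IsU J A) : Sp J A := by
  intro x y
  rw [← h.2 x, h.inner]

theorem Sp.comp {J A B : E →L[ℝ] E} (hA : Sp J A) (hB : Sp J B) : Sp J (A.comp B) := by
  intro x y
  change ⟪J (A (B x)), A (B y)⟫ = ⟪J x, y⟫
  rw [hA, hB]

theorem IsU.comp {J A B : E →L[ℝ] E} (hA : IsU J A) (hB : IsU J B) : IsU J (A.comp B) := by
  refine ⟨fun x => ?_, fun x => ?_⟩
  · change ‖A (B x)‖ = ‖x‖
    rw [hA.1, hB.1]
  · change A (B (J x)) = J (A (B x))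
    rw [hB.2, hA.2]

theorem Sp.injective {J A : E →L[ℝ] E} (hJ : IsJ J) (hA : Sp J A) : Function.Injective A := by
  rw [injective_iff_map_eq_zero]
  intro x hx
  have h1 : ⟪J x, J x⟫ = 0 := by
    rw [← hA x (J x), hx, map_zero, inner_zero_left]
  rw [hJ.iso, inner_self_eq_zero] at h1
  exact h1

/-! ### Diagonal operators -/

variable {m : ℕ}

/-- the operator with the eigenvectors `b i` and the eigenvalues `g i` -/
noncomputable def dg (b : OrthonormalBasis (Fin m) ℝ E) (g : Fin m → ℝ) : E →L[ℝ] E :=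
  ∑ i, g i • (innerSL ℝ (b i)).smulRight (b i)

theorem dg_apply (b : OrthonormalBasis (Fin m) ℝ E) (g : Fin m → ℝ) (x : E) :
    dg b g x = ∑ i, (g i * ⟪b i, x⟫) • b i := by
  unfold dg
  rw [ContinuousLinearMap.sum_apply]
  refine Finset.sum_congr rfl fun i _ => ?_
  rw [ContinuousLinearMap.smul_apply, ContinuousLinearMap.smulRight_apply, smul_smul]
  rfl

theorem dg_coord (b : OrthonormalBasis (Fin m) ℝ E) (g : Fin m → ℝ) (x : E) (i : Fin m) :
    ⟪b i, dg b g x⟫ = g i * ⟪b i, x⟫ := by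
  rw [dg_apply, inner_sum, Finset.sum_eq_single i]
  · rw [inner_smul_right, real_inner_self_eq_norm_sq, b.norm_eq_one]
    ring
  · intro j _ hj
    rw [inner_smul_right, b.inner_eq_zero hj.symm, mul_zero]
  · intro h
    exact absurd (Finset.mem_univ i) h

theorem ext_coord (b : OrthonormalBasis (Fin m) ℝ E) {x y : E} (h : ∀ i, ⟪b i, x⟫ = ⟪b i, y⟫) : x = y := by
  rw [← b.sum_repr' x, ← b.sum_repr' y]
  exact Finset.sum_congr rfl fun i _ => by rw [h i]

theorem norm_coord (b : OrthonormalBasis (Fin m) ℝ E) (x : E) : ‖x‖ ^ 2 = ∑ i, ⟪b i, x⟫ ^ 2 := by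
  rw [← b.sum_sq_norm_inner_right x]
  exact Finset.sum_congr rfl fun i _ => by rw [Real.norm_eq_abs, sq_abs]

theorem dg_one (b : OrthonormalBasis (Fin m) ℝ E) : dg b (fun _ => 1) = 1 := by
  ext x
  refine ext_coord b fun i => ?_
  rw [dg_coord, one_mul]
  rfl

theorem dg_dg (b : OrthonormalBasis (Fin m) ℝ E) (g k : Fin m → ℝ) (x : E) :
    dg b g (dg b k x) = dg b (fun i => g i * k i) x := by
  refine ext_coord b fun i => ?_
  rw [dg_coord, dg_coord, dg_coord, mul_assoc]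

theorem dg_continuous (b : OrthonormalBasis (Fin m) ℝ E) {X : Type*} [TopologicalSpace X] {s : Set X}
    {g : X → Fin m → ℝ} (hg : ∀ i, ContinuousOn (fun t => g t i) s) : ContinuousOn (fun t => dg b (g t)) s := by
  unfold dg
  exact continuousOn_finset_sum _ fun i _ => (hg i).smul continuousOn_const

/-- Diagonal operators which are symplectic. -/
theorem dg_sp {J : E →L[ℝ] E} (b : OrthonormalBasis (Fin m) ℝ E) (g : Fin m → ℝ)
    (h : ∀ i j, ⟪J (b i), b j⟫ ≠ 0 → g i * g j = 1) : Sp J (dg b g) := by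
  intro x y
  have e1 : ∀ (g : Fin m → ℝ) (x : E), J (dg b g x) = ∑ i, (g i * ⟪b i, x⟫) • J (b i) := by
    intro g x
    rw [dg_apply, map_sum]
    exact Finset.sum_congr rfl fun i _ => map_smul _ _ _
  have e2 : x = dg b (fun _ => 1) x := by rw [dg_one]; rfl
  have e3 : y = dg b (fun _ => 1) y := by rw [dg_one]; rfl
  have e4 : ∀ (g : Fin m → ℝ), ⟪J (dg b g x), dg b g y⟫ =
      ∑ i, ∑ j, (g i * g j * ⟪J (b i), b j⟫) * (⟪b i, x⟫ * ⟪b j, y⟫) := by
    intro g
    rw [e1, dg_apply, sum_inner]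
    refine Finset.sum_congr rfl fun i _ => ?_
    rw [inner_sum]
    refine Finset.sum_congr rfl fun j _ => ?_
    rw [inner_smul_left, inner_smul_right]
    simp only [conj_trivial]
    ring
  conv_rhs => rw [e2, e3]
  rw [e4, e4]
  refine Finset.sum_congr rfl fun i _ => Finset.sum_congr rfl fun j _ => ?_
  by_cases h0 : ⟪J (b i), b j⟫ = 0
  · rw [h0]
    ring
  · rw [h i j h0]
    ring

end H81X
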