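import Pool.Agent.Lib.H81X.Diag

/-!
# H81X, part 3: the unitary group is path connected
-/

open Set Filter Topology
open scoped RealInnerProductSpace

namespace H81X

variable {E : Type*} [NormedAddCommGroup E] [InnerProductSpace ℝ E]

/-- the rotation `cos θ + sin θ J` -/
noncomputable def rot (J : E →L[ℝ] E) (θ : ℝ) : E →L[ℝ] E := Real.cos θ • 1 + Real.sin θ • J

theorem rot_apply (J : E →L[ℝ] E) (θ : ℝ) (x : E) : rot J θ x = Real.cos θ • x + Real.sin θ • J x := rfl

theorem rot_continuous (J : E →L[ℝ] E) : Continuous (rot J) :=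
  (Real.continuous_cos.smul continuous_const).add (Real.continuous_sin.smul continuous_const)

theorem rot_zero (J : E →L[ℝ] E) : rot J 0 = 1 := by
  ext x
  rw [rot_apply, Real.cos_zero, Real.sin_zero, one_smul, zero_smul, add_zero]
  rfl

theorem rot_rot {J : E →L[ℝ] E} (hJ : IsJ J) (θ η : ℝ) (x : E) : rot J θ (rot J η x) = rot J (θ + η) x := by
  rw [rot_apply, rot_apply, rot_apply, map_add, map_smul, map_smul, hJ.sq, Real.cos_add, Real.sin_add]
  module

theorem rot_isU {J : E →L[ℝ] E} (hJ : IsJ J) (θ : ℝ) : IsU J (rot J θ) := by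
  refine ⟨fun x => ?_, fun x => ?_⟩
  · refine (sq_eq_sq₀ (norm_nonneg _) (norm_nonneg _)).1 ?_
    rw [rot_apply, @norm_add_sq_real, norm_smul, norm_smul, hJ.norm, inner_smul_left, inner_smul_right,
      real_inner_comm, hJ.self, mul_pow, mul_pow, Real.norm_eq_abs, Real.norm_eq_abs, sq_abs, sq_abs]
    have := Real.cos_sq_add_sin_sq θ
    simp only [mul_zero, add_zero]
    rw [← add_mul, this, one_mul]
  · rw [rot_apply, rot_apply, map_add, map_smul, map_smul]

variable [FiniteDimensional ℝ E]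

/-- Some rotation of a unitary map does not have the eigenvalue `-1`. -/
theorem exists_rot {J O : E →L[ℝ] E} (hJ : IsJ J) (hO : IsU J O) :
    ∃ α : ℝ, ∀ y, rot J (-α) (O y) + y = 0 → y = 0 := by
  by_contra hcon
  push Not at hcon
  have h0 : ∀ α : ℝ, ∃ y, O y = -rot J α y ∧ y ≠ 0 := by
    intro α
    obtain ⟨y, hy, hy0⟩ := hcon α
    refine ⟨y, ?_, hy0⟩
    have e1 := congrArg (rot J α) hy
    rw [map_add, rot_rot hJ, add_neg_cancel, rot_zero, map_zero] at e1
    exact eq_neg_of_add_eq_zero_left e1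
  choose v hv hv0 using h0
  have h1 : ∀ α β : ℝ, Real.cos (α - β) ≠ 1 → ⟪v α, v β⟫ = 0 := by
    intro α β hc
    have e1 : ∀ x y : E, ⟪rot J α x, rot J β y⟫ = Real.cos (α - β) * ⟪x, y⟫ + Real.sin (α - β) * ⟪J x, y⟫ := by
      intro x y
      have e2 := (rot_isU hJ (-β)).inner (rot J α x) (rot J β y)
      rw [rot_rot hJ, rot_rot hJ, neg_add_cancel, rot_zero] at e2
      rw [← e2, neg_add_eq_sub, rot_apply, inner_add_left, inner_smul_left, inner_smul_left]
      rfl
    have e2 : ⟪v α, v β⟫ = Real.cos (α - β) * ⟪v α, v β⟫ + Real.sin (α - β) * ⟪J (v α), v β⟫ := by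
      rw [← e1, ← hO.inner, hv, hv, inner_neg_neg]
    have e3 : ⟪J (v α), v β⟫ = Real.cos (α - β) * ⟪J (v α), v β⟫ + Real.sin (α - β) * ⟪J (J (v α)), v β⟫ := by
      rw [← e1, ← hO.inner, hO.2, hv, hv, map_neg, inner_neg_neg, (rot_isU hJ α).2]
    rw [hJ.sq, inner_neg_left] at e3
    have e4 : (1 - Real.cos (α - β)) * (⟪v α, v β⟫ ^ 2 + ⟪J (v α), v β⟫ ^ 2) = 0 := by
      linear_combination ⟪v α, v β⟫ * e2 + ⟪J (v α), v β⟫ * e3
    have e5 : ⟪v α, v β⟫ ^ 2 + ⟪J (v α), v β⟫ ^ 2 = 0 := by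
      rcases mul_eq_zero.1 e4 with e | e
      · exact absurd (by linarith) hc
      · exact e
    nlinarith [sq_nonneg ⟪v α, v β⟫, sq_nonneg ⟪J (v α), v β⟫]
  have h2 : LinearIndependent ℝ (fun k : ℕ => v (1 / ((k : ℝ) + 1))) := by
    refine linearIndependent_of_ne_zero_of_inner_eq_zero (fun k => hv0 _) fun k l hkl => ?_
    refine h1 _ _ fun hc => hkl ?_
    have b1 : ∀ k : ℕ, 0 < 1 / ((k : ℝ) + 1) ∧ 1 / ((k : ℝ) + 1) ≤ 1 := by
      intro k
      have : (0:ℝ) ≤ k := Nat.cast_nonneg k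
      exact ⟨by positivity, by rw [div_le_one (by positivity)]; linarith⟩
    have hp := Real.pi_gt_three
    rw [Real.cos_eq_one_iff_of_lt_of_lt (by linarith [(b1 k).1, (b1 l).2]) (by linarith [(b1 k).2, (b1 l).1])] at hc
    have e1 : 1 / ((k : ℝ) + 1) = 1 / ((l : ℝ) + 1) := by linarith
    have hk : (0:ℝ) ≤ k := Nat.cast_nonneg k
    have hl : (0:ℝ) ≤ l := Nat.cast_nonneg l
    rw [div_eq_div_iff (by positivity) (by positivity)] at e1
    have e2 : (k : ℝ) = l := by linarith
    exact_mod_cast e2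
  exact Module.Finite.not_linearIndependent_of_infinite _ h2

/-- an injective operator is a unit -/
theorem isUnit_of_inj {Q : E →L[ℝ] E} (h : ∀ y, Q y = 0 → y = 0) : IsUnit Q := by
  have hi : Function.Injective (Q : E →ₗ[ℝ] E) := by
    rw [injective_iff_map_eq_zero]
    exact h
  set e := (LinearEquiv.ofInjectiveEndo (Q : E →ₗ[ℝ] E) hi).toContinuousLinearEquiv with he
  have h1 : ∀ x, Q ((e.symm : E →L[ℝ] E) x) = x := fun x => e.apply_symm_apply x
  have h2 : ∀ x, (e.symm : E →L[ℝ] E) (Q x) = x := fun x => e.symm_apply_apply x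
  exact ⟨⟨Q, (e.symm : E →L[ℝ] E), ContinuousLinearMap.ext h1, ContinuousLinearMap.ext h2⟩, rfl⟩

/-- The Cayley path of a unitary map without the eigenvalue `-1`. -/
theorem cayley {J O : E →L[ℝ] E} (hO : IsU J O) (hn : ∀ y, O y + y = 0 → y = 0) :
    ∃ W : ℝ → E →L[ℝ] E, ContinuousOn W (Icc 0 1) ∧ W 0 = 1 ∧ W 1 = O ∧ ∀ t ∈ Icc (0:ℝ) 1, IsU J (W t) := by
  set P : ℝ → E →L[ℝ] E := fun t => (1 + t) • O + (1 - t) • 1 with hP
  set Q : ℝ → E →L[ℝ] E := fun t => (1 - t) • O + (1 + t) • 1 with hQ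
  have hPa : ∀ t x, P t x = (1 + t) • O x + (1 - t) • x := fun t x => rfl
  have hQa : ∀ t x, Q t x = (1 - t) • O x + (1 + t) • x := fun t x => rfl
  have hPc : Continuous P := by
    exact ((continuous_const.add continuous_id).smul continuous_const).add
      ((continuous_const.sub continuous_id).smul continuous_const)
  have hQc : Continuous Q := by
    exact ((continuous_const.sub continuous_id).smul continuous_const).add
      ((continuous_const.add continuous_id).smul continuous_const)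
  have hPQ : ∀ t x, ‖P t x‖ = ‖Q t x‖ := by
    intro t x
    refine (sq_eq_sq₀ (norm_nonneg _) (norm_nonneg _)).1 ?_
    rw [hPa, hQa, @norm_add_sq_real, @norm_add_sq_real, norm_smul, norm_smul, norm_smul, norm_smul, hO.1,
      inner_smul_left, inner_smul_right, inner_smul_left, inner_smul_right]
    simp only [conj_trivial]
    ring
  have hQi : ∀ t ∈ Icc (0:ℝ) 1, IsUnit (Q t) := by
    intro t ht
    refine isUnit_of_inj fun y hy => ?_
    rw [hQa] at hy
    rcases eq_or_lt_of_le ht.1 with h0 | h0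
    · refine hn y ?_
      rw [← h0] at hy
      simpa using hy
    · have e1 : (1 - t) • O y = -((1 + t) • y) := eq_neg_of_add_eq_zero_left hy
      have e2 := congrArg norm e1
      rw [norm_neg, norm_smul, norm_smul, hO.1, Real.norm_of_nonneg (by linarith [ht.2]),
        Real.norm_of_nonneg (by linarith)] at e2
      have e3 : t * ‖y‖ = 0 := by linarith
      rcases mul_eq_zero.1 e3 with e | e
      · exact absurd e (ne_of_gt h0)
      · exact norm_eq_zero.1 e
  have hQinv : ∀ t ∈ Icc (0:ℝ) 1, ∀ x, Q t (Ring.inverse (Q t) x) = x := by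
    intro t ht x
    have e1 := Ring.mul_inverse_cancel (Q t) (hQi t ht)
    exact congrArg (fun f : E →L[ℝ] E => f x) e1
  have hQinv' : ∀ t ∈ Icc (0:ℝ) 1, ∀ x, Ring.inverse (Q t) (Q t x) = x := by
    intro t ht x
    have e1 := Ring.inverse_mul_cancel (Q t) (hQi t ht)
    exact congrArg (fun f : E →L[ℝ] E => f x) e1
  refine ⟨fun t => P t * Ring.inverse (Q t), ?_, ?_, ?_, ?_⟩
  · intro t ht
    have e1 : ContinuousAt Ring.inverse (Q t) := by
      obtain ⟨u, hu⟩ := hQi t ht
      rw [← hu]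
      exact NormedRing.inverse_continuousAt u
    exact (hPc.continuousAt.mul (ContinuousAt.comp e1 hQc.continuousAt)).continuousWithinAt
  · have e1 : P 0 = Q 0 := by
      simp only [hP, hQ]
      simp
    change P 0 * Ring.inverse (Q 0) = 1
    rw [e1]
    exact Ring.mul_inverse_cancel (Q 0) (hQi 0 ⟨le_refl _, zero_le_one⟩)
  · have e1 : P 1 = O * Q 1 := by
      simp only [hP, hQ]
      simp
    change P 1 * Ring.inverse (Q 1) = O
    rw [e1, mul_assoc, Ring.mul_inverse_cancel (Q 1) (hQi 1 ⟨zero_le_one, le_refl _⟩), mul_one]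
  · intro t ht
    refine ⟨fun x => ?_, fun x => ?_⟩
    · change ‖P t (Ring.inverse (Q t) x)‖ = ‖x‖
      rw [hPQ, hQinv t ht]
    · change P t (Ring.inverse (Q t) (J x)) = J (P t (Ring.inverse (Q t) x))
      have e1 : ∀ y, Q t (J y) = J (Q t y) := by
        intro y
        rw [hQa, hQa, map_add, map_smul, map_smul, hO.2]
      have e2 : ∀ y, P t (J y) = J (P t y) := by
        intro y
        rw [hPa, hPa, map_add, map_smul, map_smul, hO.2]
      have e3 : Ring.inverse (Q t) (J x) = J (Ring.inverse (Q t) x) := by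
        conv_lhs => rw [← hQinv t ht x]
        rw [← e1, hQinv' t ht]
      rw [e3, e2]

/-- The unitary group is path connected. -/
theorem upath {J O : E →L[ℝ] E} (hJ : IsJ J) (hO : IsU J O) :
    ∃ W : ℝ → E →L[ℝ] E, ContinuousOn W (Icc 0 1) ∧ W 0 = 1 ∧ W 1 = O ∧ ∀ t ∈ Icc (0:ℝ) 1, IsU J (W t) := by
  obtain ⟨α, hα⟩ := exists_rot hJ hO
  have h1 : IsU J ((rot J (-α)).comp O) := (rot_isU hJ _).comp hO
  obtain ⟨W, hW, hW0, hW1, hWU⟩ := cayley h1 hα
  refine ⟨fun t => (rot J (t * α)).comp (W t), ?_, ?_, ?_, ?_⟩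
  · exact ((rot_continuous J).comp (continuous_id.mul continuous_const)).continuousOn.clm_comp hW
  · change (rot J (0 * α)).comp (W 0) = 1
    rw [zero_mul, rot_zero, hW0]
    rfl
  · change (rot J (1 * α)).comp (W 1) = O
    rw [one_mul, hW1]
    ext x
    change rot J α (rot J (-α) (O x)) = O x
    rw [rot_rot hJ, add_neg_cancel, rot_zero]
    rfl
  · exact fun t ht => (rot_isU hJ _).comp (hWU t ht)

end H81X
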