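import Pool.Agent.Lib.H81X.Spec
import Pool.Agent.Lib.H81X.UPath

/-!
# H81X, part 4: the fibre lemma

Every affine symplectic map `x ↦ A x + c` of a finite dimensional Hermitian space is joined to the identity by a path
`x ↦ B t x + d t` of affine symplectic maps with `‖B t x + d t‖ ^ 2 ≤ (1 - t) ‖x‖ ^ 2 + t ‖A x + c‖ ^ 2` for all
`x` and all `t` in `[0, 1]`. So all the maps of the path send a set `U` of the unit ball into the unit ball, if the map
at the end does.
-/

open Set Filter Topology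
open scoped RealInnerProductSpace

namespace H81X

variable {E : Type*} [NormedAddCommGroup E] [InnerProductSpace ℝ E]

/-- the path of the singular value `s` -/
noncomputable def gg (t s : ℝ) : ℝ := ((1 + t) * s + (1 - t)) / ((1 + t) + (1 - t) * s)

theorem gg_mul {t s r : ℝ} (ht : t ∈ Icc (0:ℝ) 1) (hs : 0 < s) (hr : 0 < r) (h : s * r = 1) :
    gg t s * gg t r = 1 := by
  have h0 := ht.1
  have h1 := ht.2
  have e1 : 0 ≤ (1 - t) * s := mul_nonneg (by linarith) hs.le
  have e2 : 0 ≤ (1 - t) * r := mul_nonneg (by linarith) hr.le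
  unfold gg
  rw [div_mul_div_comm, div_eq_one_iff_eq (by positivity)]
  linear_combination ((1 + t) ^ 2 - (1 - t) ^ 2) * h

theorem gg_sq {t s : ℝ} (ht : t ∈ Icc (0:ℝ) 1) (hs : 0 < s) : gg t s ^ 2 ≤ (1 - t) + t * s ^ 2 := by
  have h0 := ht.1
  have h1 : 0 ≤ 1 - t := by linarith [ht.2]
  have e1 : 0 ≤ (1 - t) * s := mul_nonneg h1 hs.le
  have e2 : 0 < (1 + t) + (1 - t) * s := by linarith
  unfold gg
  rw [div_pow, div_le_iff₀ (pow_pos e2 2)]
  have e3 : 0 ≤ t * (1 - t) * (s - 1) ^ 2 * ((1 - t) * s ^ 2 + 4 * s + (3 + t)) := by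
    have : 0 ≤ (1 - t) * s ^ 2 + 4 * s + (3 + t) := by positivity
    positivity
  nlinarith [e3]

theorem gg_continuous {s : ℝ} (hs : 0 < s) : ContinuousOn (fun t => gg t s) (Icc 0 1) := by
  unfold gg
  refine ContinuousOn.div (by fun_prop) (by fun_prop) fun t ht => ?_
  have e1 : 0 ≤ (1 - t) * s := mul_nonneg (by linarith [ht.2]) hs.le
  exact ne_of_gt (by linarith [ht.1])

/-- the path of the coordinates of the translation -/
noncomputable def kk (t h : ℝ) : ℝ := t * h / ((1 - t) + t * h)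

theorem kk_pos {t h : ℝ} (ht : t ∈ Icc (0:ℝ) 1) (hh : 0 < h) : 0 < (1 - t) + t * h := by
  rcases eq_or_lt_of_le ht.1 with h0 | h0
  · rw [← h0]
    norm_num
  · have := mul_pos h0 hh
    linarith [ht.2]

theorem kk_continuous {h : ℝ} (hh : 0 < h) : ContinuousOn (fun t => kk t h) (Icc 0 1) := by
  unfold kk
  exact ContinuousOn.div (by fun_prop) (by fun_prop) fun t ht => ne_of_gt (kk_pos ht hh)

theorem kk_le {t h x p : ℝ} (ht : t ∈ Icc (0:ℝ) 1) (hh : 0 < h) :
    ((1 - t) + t * h) * (x - kk t h * p) ^ 2 ≤ (1 - t) * x ^ 2 + t * (h * (x - p) ^ 2) := by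
  have hm := kk_pos ht hh
  set m := (1 - t) + t * h with hmd
  have e1 : m * kk t h = t * h := by
    unfold kk
    rw [← hmd, mul_div_cancel₀ _ hm.ne']
  have e2 : (1 - t) * x ^ 2 + t * (h * (x - p) ^ 2) - m * (x - kk t h * p) ^ 2 = (1 - t) * kk t h * p ^ 2 := by
    have e3 : t * h - m * kk t h ^ 2 = (1 - t) * kk t h := by
      have : m * kk t h ^ 2 = t * h * kk t h := by rw [pow_two, ← mul_assoc, e1]
      rw [this]
      have e4 : m * kk t h = ((1 - t) + t * h) * kk t h := by rw [hmd]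
      rw [e1] at e4
      linarith
    have e5 : m * (x - kk t h * p) ^ 2 = m * x ^ 2 - 2 * (m * kk t h) * (x * p) + m * kk t h ^ 2 * p ^ 2 := by ring
    rw [e5, e1]
    have e6 : m * kk t h ^ 2 = t * h - (1 - t) * kk t h := by linarith
    rw [e6, hmd]
    ring
  have e3 : 0 ≤ kk t h := by
    unfold kk
    exact div_nonneg (mul_nonneg ht.1 hh.le) hm.le
  have e4 : 0 ≤ (1 - t) * kk t h * p ^ 2 :=
    mul_nonneg (mul_nonneg (by linarith [ht.2]) e3) (sq_nonneg _)
  linarith

/-- **The fibre lemma.** -/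
theorem fibre [FiniteDimensional ℝ E] {J A : E →L[ℝ] E} (hJ : IsJ J) (hA : Sp J A) (c : E) :
    ∃ (B : ℝ → E →L[ℝ] E) (d : ℝ → E), ContinuousOn B (Icc 0 1) ∧ ContinuousOn d (Icc 0 1) ∧
      B 0 = 1 ∧ d 0 = 0 ∧ B 1 = A ∧ d 1 = c ∧ (∀ t ∈ Icc (0:ℝ) 1, Sp J (B t)) ∧
      ∀ t ∈ Icc (0:ℝ) 1, ∀ x, ‖B t x + d t‖ ^ 2 ≤ (1 - t) * ‖x‖ ^ 2 + t * ‖A x + c‖ ^ 2 := by
  obtain ⟨m, b, h, hp, hn, hs⟩ := spectral hJ hA
  have hsurj : Function.Surjective A :=
    (LinearMap.injective_iff_surjective (f := (A : E →ₗ[ℝ] E))).1 (hA.injective hJ)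
  obtain ⟨p, hpc⟩ := hsurj (-c)
  set s : Fin m → ℝ := fun i => √(h i) with hsd
  have hs0 : ∀ i, 0 < s i := fun i => Real.sqrt_pos.2 (hp i)
  have hs2 : ∀ i, s i ^ 2 = h i := fun i => Real.sq_sqrt (hp i).le
  have hss : ∀ i j, ⟪J (b i), b j⟫ ≠ 0 → s i * s j = 1 := by
    intro i j hij
    rw [hsd]
    change √(h i) * √(h j) = 1
    rw [← Real.sqrt_mul (hp i).le, hs i j hij, Real.sqrt_one]
  -- the unitary part
  set O : E →L[ℝ] E := A.comp (dg b (fun i => (s i)⁻¹)) with hO
  have hOs : Sp J O := hA.comp (dg_sp b _ fun i j hij => by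
    rw [← mul_inv, hss i j hij, inv_one])
  have hOn : ∀ x, ‖O x‖ = ‖x‖ := by
    intro x
    refine (sq_eq_sq₀ (norm_nonneg _) (norm_nonneg _)).1 ?_
    change ‖A (dg b (fun i => (s i)⁻¹) x)‖ ^ 2 = ‖x‖ ^ 2
    rw [hn, norm_coord b x]
    refine Finset.sum_congr rfl fun i _ => ?_
    rw [dg_coord, mul_pow, ← hs2 i, ← mul_assoc, ← mul_pow, mul_inv_cancel₀ (hs0 i).ne', one_pow, one_mul]
  have hOU : IsU J O := by
    refine ⟨hOn, fun x => ?_⟩
    have hOsurj : Function.Surjective O :=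
      (LinearMap.injective_iff_surjective (f := (O : E →ₗ[ℝ] E))).1 (hOs.injective hJ)
    have hin : ∀ x y, ⟪O x, O y⟫ = ⟪x, y⟫ := (LinearMap.norm_map_iff_inner_map_map (O : E →ₗ[ℝ] E)).1 hOn
    refine ext_inner_right ℝ fun z => ?_
    obtain ⟨y, rfl⟩ := hOsurj z
    rw [hin, hOs]
  have hOA : ∀ x, O (dg b s x) = A x := by
    intro x
    change A (dg b (fun i => (s i)⁻¹) (dg b s x)) = A x
    rw [dg_dg]
    have : (fun i => (s i)⁻¹ * s i) = fun _ => (1:ℝ) := by
      funext i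
      exact inv_mul_cancel₀ (hs0 i).ne'
    rw [this, dg_one]
    rfl
  obtain ⟨W, hWc, hW0, hW1, hWU⟩ := upath hJ hOU
  have hGc : ContinuousOn (fun t => dg b (fun i => gg t (s i))) (Icc 0 1) :=
    dg_continuous b fun i => gg_continuous (hs0 i)
  have hKc : ContinuousOn (fun t => dg b (fun i => kk t (h i))) (Icc 0 1) :=
    dg_continuous b fun i => kk_continuous (hp i)
  set B : ℝ → E →L[ℝ] E := fun t => (W t).comp (dg b (fun i => gg t (s i))) with hB
  have hBc : ContinuousOn B (Icc 0 1) := hWc.clm_comp hGc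
  refine ⟨B, fun t => -(B t (dg b (fun i => kk t (h i)) p)), hBc, ?_, ?_, ?_, ?_, ?_, ?_, ?_⟩
  · exact (hBc.clm_apply (hKc.clm_apply continuousOn_const)).neg
  · change (W 0).comp (dg b (fun i => gg 0 (s i))) = 1
    have : (fun i => gg 0 (s i)) = fun _ => (1:ℝ) := by
      funext i
      have := hs0 i
      unfold gg
      rw [div_eq_one_iff_eq (by positivity)]
      ring
    rw [this, dg_one, hW0]
    rfl
  · have : (fun i => kk 0 (h i)) = fun _ => (0:ℝ) := by
      funext i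
      unfold kk
      simp
    change -(B 0 (dg b (fun i => kk 0 (h i)) p)) = 0
    rw [this, dg_apply]
    simp
  · have : (fun i => gg 1 (s i)) = s := by
      funext i
      unfold gg
      ring
    change (W 1).comp (dg b (fun i => gg 1 (s i))) = A
    rw [this, hW1]
    ext x
    exact hOA x
  · have h1 : (fun i => kk 1 (h i)) = fun _ => (1:ℝ) := by
      funext i
      unfold kk
      rw [div_eq_one_iff_eq (by simpa using (hp i).ne')]
      ring
    have h2 : (fun i => gg 1 (s i)) = s := by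
      funext i
      unfold gg
      ring
    change -(W 1 (dg b (fun i => gg 1 (s i)) (dg b (fun i => kk 1 (h i)) p))) = c
    rw [h1, h2, dg_one, hW1]
    change -(O (dg b s p)) = c
    rw [hOA, hpc, neg_neg]
  · intro t ht
    exact (hWU t ht).sp.comp (dg_sp b _ fun i j hij => gg_mul ht (hs0 i) (hs0 j) (hss i j hij))
  · intro t ht x
    have e1 : B t x + -(B t (dg b (fun i => kk t (h i)) p)) =
        W t (dg b (fun i => gg t (s i)) (x - dg b (fun i => kk t (h i)) p)) := by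
      change W t (dg b (fun i => gg t (s i)) x) + -(W t (dg b (fun i => gg t (s i)) _)) = _
      rw [map_sub, map_sub, sub_eq_add_neg]
    have e2 : A x + c = A (x - p) := by
      rw [map_sub, hpc, sub_neg_eq_add]
    change ‖B t x + -(B t (dg b (fun i => kk t (h i)) p))‖ ^ 2 ≤ _
    rw [e1, e2, (hWU t ht).1, hn, norm_coord b x, norm_coord b (dg b (fun i => gg t (s i)) _), Finset.mul_sum,
      Finset.mul_sum, ← Finset.sum_add_distrib]
    refine Finset.sum_le_sum fun i _ => ?_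
    rw [dg_coord, inner_sub_right, dg_coord, inner_sub_right, mul_pow]
    have e3 := gg_sq ht (hs0 i)
    rw [hs2] at e3
    exact le_trans (mul_le_mul_of_nonneg_right e3 (sq_nonneg _)) (kk_le ht (hp i))

end H81X
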