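import Pool.Agent.Lib.H81X.Diag

/-!
# H81X, part 2: the singular values of a symplectic map
-/

open Set Filter Topology
open scoped RealInnerProductSpace

namespace H81X

variable {E : Type*} [NormedAddCommGroup E] [InnerProductSpace ℝ E] [FiniteDimensional ℝ E]

theorem spectral {J A : E →L[ℝ] E} (hJ : IsJ J) (hA : Sp J A) :
    ∃ (m : ℕ) (b : OrthonormalBasis (Fin m) ℝ E) (h : Fin m → ℝ), (∀ i, 0 < h i) ∧
      (∀ y, ‖A y‖ ^ 2 = ∑ i, h i * ⟪b i, y⟫ ^ 2) ∧ ∀ i j, ⟪J (b i), b j⟫ ≠ 0 → h i * h j = 1 := by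
  classical
  set A' : E →ₗ[ℝ] E := (A : E →ₗ[ℝ] E) with hA'
  set J' : E →ₗ[ℝ] E := (J : E →ₗ[ℝ] E) with hJ'
  set D : E →ₗ[ℝ] E := LinearMap.adjoint A' with hD
  have hDi : ∀ x y, ⟪D x, y⟫ = ⟪x, A y⟫ := fun x y => LinearMap.adjoint_inner_left A' y x
  have hDr : ∀ x y, ⟪x, D y⟫ = ⟪A x, y⟫ := fun x y => LinearMap.adjoint_inner_right A' x y
  -- `D J A = J`
  have h1 : ∀ x, D (J (A x)) = J x := by
    intro x
    refine ext_inner_right ℝ fun y => ?_
    rw [hDi, hA]
  have h2 : (-(J' * D * J')) * A' = 1 := by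
    ext x
    change -(J (D (J (A x)))) = x
    rw [h1, hJ.sq, neg_neg]
  have h3 : A' * (-(J' * D * J')) = 1 := mul_eq_one_comm.1 h2
  have h4 : ∀ x, A (J (D x)) = J x := by
    intro x
    have e1 := LinearMap.congr_fun h3 (J x)
    change A (-(J (D (J (J x))))) = J x at e1
    simp only [hJ.sq, map_neg, neg_neg] at e1
    exact e1
  set T : E →ₗ[ℝ] E := D ∘ₗ A' with hT
  have hTa : ∀ x y, ⟪T x, y⟫ = ⟪A x, A y⟫ := fun x y => hDi (A x) y
  have hS : T.IsSymmetric := by
    intro x y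
    rw [hTa]
    change _ = ⟪x, D (A y)⟫
    rw [hDr]
  have hTJT : ∀ x, T (J (T x)) = J x := by
    intro x
    change D (A (J (D (A x)))) = J x
    rw [h4, h1]
  set b := hS.eigenvectorBasis rfl with hb
  set h := hS.eigenvalues rfl with hh
  have hTb : ∀ i, T (b i) = h i • b i := fun i => hS.apply_eigenvectorBasis rfl i
  have hn : ∀ y, ‖A y‖ ^ 2 = ∑ i, h i * ⟪b i, y⟫ ^ 2 := by
    intro y
    rw [← real_inner_self_eq_norm_sq, ← hTa, ← b.sum_inner_mul_inner]
    refine Finset.sum_congr rfl fun i _ => ?_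
    rw [hS, hTb, inner_smul_right, real_inner_comm (b i) y]
    ring
  have hp : ∀ i, 0 < h i := by
    intro i
    have e1 := hTa (b i) (b i)
    rw [hTb, inner_smul_left, real_inner_self_eq_norm_sq, real_inner_self_eq_norm_sq, b.norm_eq_one] at e1
    simp only [conj_trivial, one_pow, mul_one] at e1
    rw [e1]
    have e2 : A (b i) ≠ 0 := by
      intro e3
      have e4 := hA.injective hJ (e3.trans (map_zero A).symm)
      have e5 := b.norm_eq_one i
      rw [e4, norm_zero] at e5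
      exact zero_ne_one e5
    exact pow_pos (norm_pos_iff.2 e2) 2
  refine ⟨_, b, h, hp, hn, fun i j hij => ?_⟩
  have e1 : ⟪T (J (T (b i))), b j⟫ = ⟪J (b i), b j⟫ := by rw [hTJT]
  rw [hS, hTb, hTb, map_smul, inner_smul_left, inner_smul_right] at e1
  simp only [conj_trivial] at e1
  exact mul_right_cancel₀ hij (by linarith)

end H81X
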